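import Mathlib
import Pool.Agent.R603.HE.Gen

/-!
# Mutually generic pairs of ultrafilters under the continuum hypothesis
-/

namespace Pool.Agent.R603.Tukey

open Filter Set Cardinal Pool.Agent.R603.HE

/-- Under the continuum hypothesis there are pairs of ultrafilters meeting at most `𝔠` given dense
sets of pairs of infinite sets of natural numbers. -/
theorem exists_generic2 (hCH : aleph 1 = continuum.{0}) {T : Type} [Nonempty T] (hT : #T ≤ 𝔠)
    (D : T → Set (Set ℕ × Set ℕ))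
    (hD : ∀ t, ∀ A B : Set ℕ, A.Infinite → B.Infinite →
      ∃ A' ⊆ A, ∃ B' ⊆ B, A'.Infinite ∧ B'.Infinite ∧ (A', B') ∈ D t) :
    ∃ p q : Ultrafilter ℕ, (p : Filter ℕ) ≤ cofinite ∧ (q : Filter ℕ) ≤ cofinite ∧
      ∀ t, ∃ A ∈ p, ∃ B ∈ q, (A, B) ∈ D t := by
  classical
  have hO : #T ≤ #O1 := by
    rw [Cardinal.mk_ord_toType, hCH]; exact hT
  obtain ⟨j⟩ := Cardinal.le_def _ _ |>.1 hO
  let τ : O1 → T := Function.invFun j
  have hτ : Function.Surjective τ := Function.invFun_surjective j.injective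
  obtain ⟨x, hx⟩ := exists_rec (O := O1) (K := Set ℕ × Set ℕ)
    (fun o s y => s.Countable → Chain (Prod.fst '' s) → Chain (Prod.snd '' s) →
      y.1.Infinite ∧ y.2.Infinite ∧ y ∈ D (τ o) ∧
        ∀ a ∈ s, (y.1 \ a.1).Finite ∧ (y.2 \ a.2).Finite) (by
      intro o s
      by_cases hs : s.Countable ∧ Chain (Prod.fst '' s) ∧ Chain (Prod.snd '' s)
      · obtain ⟨y, hy, hy'⟩ := exists_pseudo hs.2.1 (hs.1.image _)
        obtain ⟨z, hz, hz'⟩ := exists_pseudo hs.2.2 (hs.1.image _)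
        obtain ⟨A', hA', B', hB', h1, h2, h3⟩ := hD (τ o) y z hy hz
        refine ⟨(A', B'), fun _ _ _ => ⟨h1, h2, h3, fun a ha => ⟨?_, ?_⟩⟩⟩
        · exact (hy' _ ⟨a, ha, rfl⟩).subset (Set.sdiff_subset_sdiff_left hA')
        · exact (hz' _ ⟨a, ha, rfl⟩).subset (Set.sdiff_subset_sdiff_left hB')
      · exact ⟨(∅, ∅), fun h1 h2 h3 => absurd ⟨h1, h2, h3⟩ hs⟩)
  have hmain : ∀ o, (x o).1.Infinite ∧ (x o).2.Infinite ∧ x o ∈ D (τ o) ∧
      ∀ i < o, ((x o).1 \ (x i).1).Finite ∧ ((x o).2 \ (x i).2).Finite := by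
    intro o
    induction o using WellFoundedLT.induction with
    | ind o ih =>
      have h1 : (x '' Set.Iio o).Countable := (countable_Iio o).image x
      have h2 : Chain (Prod.fst '' (x '' Set.Iio o)) := by
        refine ⟨?_, ?_⟩
        · rintro _ ⟨_, ⟨i, hi, rfl⟩, rfl⟩
          exact (ih i hi).1
        · rintro _ ⟨_, ⟨i, hi, rfl⟩, rfl⟩ _ ⟨_, ⟨j, hj, rfl⟩, rfl⟩
          rcases lt_trichotomy i j with h | h | h
          · exact Or.inr ((ih j hj).2.2.2 i h).1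
          · subst h
            simp
          · exact Or.inl ((ih i hi).2.2.2 j h).1
      have h2' : Chain (Prod.snd '' (x '' Set.Iio o)) := by
        refine ⟨?_, ?_⟩
        · rintro _ ⟨_, ⟨i, hi, rfl⟩, rfl⟩
          exact (ih i hi).2.1
        · rintro _ ⟨_, ⟨i, hi, rfl⟩, rfl⟩ _ ⟨_, ⟨j, hj, rfl⟩, rfl⟩
          rcases lt_trichotomy i j with h | h | h
          · exact Or.inr ((ih j hj).2.2.2 i h).2
          · subst h
            simp
          · exact Or.inl ((ih i hi).2.2.2 j h).2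
      obtain ⟨h3, h3', h4, h5⟩ := hx o h1 h2 h2'
      exact ⟨h3, h3', h4, fun i hi => h5 _ ⟨i, hi, rfl⟩⟩
  have hch : Chain (Set.range (fun o => (x o).1)) := by
    refine ⟨?_, ?_⟩
    · rintro _ ⟨i, rfl⟩
      exact (hmain i).1
    · rintro _ ⟨i, rfl⟩ _ ⟨j, rfl⟩
      rcases lt_trichotomy i j with h | h | h
      · exact Or.inr ((hmain j).2.2.2 i h).1
      · subst h
        simp
      · exact Or.inl ((hmain i).2.2.2 j h).1
  have hch' : Chain (Set.range (fun o => (x o).2)) := by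
    refine ⟨?_, ?_⟩
    · rintro _ ⟨i, rfl⟩
      exact (hmain i).2.1
    · rintro _ ⟨i, rfl⟩ _ ⟨j, rfl⟩
      rcases lt_trichotomy i j with h | h | h
      · exact Or.inr ((hmain j).2.2.2 i h).2
      · subst h
        simp
      · exact Or.inl ((hmain i).2.2.2 j h).2
  have hne := chFilter_neBot hch
  have hne' := chFilter_neBot hch'
  refine ⟨Ultrafilter.of (chFilter (Set.range (fun o => (x o).1))),
    Ultrafilter.of (chFilter (Set.range (fun o => (x o).2))),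
    (Ultrafilter.of_le _).trans inf_le_right, (Ultrafilter.of_le _).trans inf_le_right,
    fun t => ?_⟩
  obtain ⟨o, rfl⟩ := hτ t
  refine ⟨(x o).1, ?_, (x o).2, ?_, (hmain o).2.2.1⟩
  · have h1 : chFilter (Set.range (fun o => (x o).1)) ≤ 𝓟 (x o).1 :=
      inf_le_left.trans ((iInf_le _ ⟨(x o).1, ⟨o, rfl⟩⟩).trans inf_le_right)
    exact ((Ultrafilter.of_le _).trans h1) (mem_principal_self _)
  · have h1 : chFilter (Set.range (fun o => (x o).2)) ≤ 𝓟 (x o).2 :=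
      inf_le_left.trans ((iInf_le _ ⟨(x o).2, ⟨o, rfl⟩⟩).trans inf_le_right)
    exact ((Ultrafilter.of_le _).trans h1) (mem_principal_self _)

/-- the position of the game after `i` rounds -/
def pre (x y : ℕ → ℕ) (i : ℕ) : List (ℕ × ℕ) := (List.range i).map (fun j => (x j, y j))

theorem pre_succ (x y : ℕ → ℕ) (i : ℕ) : pre x y (i + 1) = pre x y i ++ [(x i, y i)] := by
  simp [pre, List.range_succ]

theorem length_pre (x y : ℕ → ℕ) (i : ℕ) : (pre x y i).length = i := by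
  simp [pre]

theorem mem_pre {x y : ℕ → ℕ} {i j : ℕ} (h : j < i) : (x j, y j) ∈ pre x y i := by
  simp only [pre, List.mem_map, List.mem_range]
  exact ⟨j, h, rfl⟩

theorem take_pre {x y : ℕ → ℕ} {i j : ℕ} (h : j ≤ i) : (pre x y i).take j = pre x y j := by
  simp only [pre, ← List.map_take, List.take_range, min_eq_left h]

theorem getD_pre {x y : ℕ → ℕ} {i j : ℕ} (h : j < i) (d : ℕ × ℕ) :
    (pre x y i).getD j d = (x j, y j) := by
  rw [List.getD_eq_getElem _ _ (by rw [length_pre]; exact h)]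
  simp [pre]

/-- Player I has no winning strategy in the game for the pair `(W, V)` -/
def NoStrategy (W V : Ultrafilter ℕ) : Prop :=
  ∀ (σ : List (ℕ × ℕ) → Set ℕ) (τ : List (ℕ × ℕ) → ℕ → Set ℕ),
    (∀ s, σ s ∈ W) → (∀ s x, τ s x ∈ V) →
    ∃ x y : ℕ → ℕ, (∀ i, x i ∈ σ (pre x y i)) ∧ (∀ i, y i ∈ τ (pre x y i) (x i)) ∧
      Set.range x ∈ W ∧ Set.range y ∈ V

theorem exists_run {A B : Set ℕ} (σ : List (ℕ × ℕ) → Set ℕ) (τ : List (ℕ × ℕ) → ℕ → Set ℕ)
    (hσ : ∀ s, (A ∩ σ s).Infinite) (hτ : ∀ s x, (B ∩ τ s x).Infinite) :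
    ∃ x y : ℕ → ℕ, StrictMono x ∧ StrictMono y ∧ (∀ i, x i ∈ A) ∧ (∀ i, y i ∈ B) ∧
      (∀ i, x i ∈ σ (pre x y i)) ∧ (∀ i, y i ∈ τ (pre x y i) (x i)) := by
  classical
  have h1 : ∀ s : List (ℕ × ℕ), ∃ x, x ∈ A ∩ σ s ∧ ∀ p ∈ s, p.1 < x := by
    intro s
    obtain ⟨x, hx, hx'⟩ := (hσ s).exists_gt ((s.map Prod.fst).sum)
    refine ⟨x, hx, fun p hp => lt_of_le_of_lt ?_ hx'⟩
    exact List.single_le_sum (fun _ _ => Nat.zero_le _) _ (List.mem_map_of_mem hp)
  have h2 : ∀ (s : List (ℕ × ℕ)) (x : ℕ), ∃ y, y ∈ B ∩ τ s x ∧ ∀ p ∈ s, p.2 < y := by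
    intro s x
    obtain ⟨y, hy, hy'⟩ := (hτ s x).exists_gt ((s.map Prod.snd).sum)
    refine ⟨y, hy, fun p hp => lt_of_le_of_lt ?_ hy'⟩
    exact List.single_le_sum (fun _ _ => Nat.zero_le _) _ (List.mem_map_of_mem hp)
  choose cx hcx hcx' using h1
  choose cy hcy hcy' using h2
  let L : ℕ → List (ℕ × ℕ) := fun i => Nat.rec [] (fun _ l => l ++ [(cx l, cy l (cx l))]) i
  let x : ℕ → ℕ := fun i => cx (L i)
  let y : ℕ → ℕ := fun i => cy (L i) (x i)
  have hL : ∀ i, pre x y i = L i := by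
    intro i
    induction i with
    | zero => rfl
    | succ i ih => rw [pre_succ, ih]
  refine ⟨x, y, ?_, ?_, fun i => (hcx _).1, fun i => (hcy _ _).1, fun i => ?_, fun i => ?_⟩
  · intro i j hij
    exact hcx' (L j) (x i, y i) (by rw [← hL]; exact mem_pre hij)
  · intro i j hij
    exact hcy' (L j) (x j) (x i, y i) (by rw [← hL]; exact mem_pre hij)
  · rw [hL]; exact (hcx _).2
  · rw [hL]; exact (hcy _ _).2

theorem exists_pair (hCH : aleph 1 = continuum.{0}) :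
    ∃ W V : Ultrafilter ℕ, (W : Filter ℕ) ≤ cofinite ∧ (V : Filter ℕ) ≤ cofinite ∧
      NoStrategy W V := by
  classical
  obtain ⟨W, V, hW, hV, h⟩ := exists_generic2 hCH
    (T := (List (ℕ × ℕ) → Set ℕ) × (List (ℕ × ℕ) → ℕ → Set ℕ)) (by simp)
    (fun t => {AB | (∃ s, AB.1 ∩ t.1 s = ∅) ∨ (∃ s x, AB.2 ∩ t.2 s x = ∅) ∨
      ∃ x y : ℕ → ℕ, (∀ i, x i ∈ t.1 (pre x y i)) ∧ (∀ i, y i ∈ t.2 (pre x y i) (x i)) ∧
        AB.1 ⊆ Set.range x ∧ AB.2 ⊆ Set.range y}) (by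
      rintro ⟨σ, τ⟩ A B hA hB
      by_cases h1 : ∃ s, (A \ σ s).Infinite
      · obtain ⟨s, hs⟩ := h1
        exact ⟨A \ σ s, Set.sdiff_subset, B, subset_rfl, hs, hB,
          Or.inl ⟨s, Set.sdiff_inter_self⟩⟩
      by_cases h2 : ∃ s x, (B \ τ s x).Infinite
      · obtain ⟨s, x, hs⟩ := h2
        exact ⟨A, subset_rfl, B \ τ s x, Set.sdiff_subset, hA, hs,
          Or.inr (Or.inl ⟨s, x, Set.sdiff_inter_self⟩)⟩
      push Not at h1 h2
      have hσ : ∀ s, (A ∩ σ s).Infinite := by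
        intro s hfin
        apply hA
        rw [← Set.inter_union_sdiff A (σ s)]
        exact hfin.union (h1 s)
      have hτ : ∀ s x, (B ∩ τ s x).Infinite := by
        intro s x hfin
        apply hB
        rw [← Set.inter_union_sdiff B (τ s x)]
        exact hfin.union (h2 s x)
      obtain ⟨x, y, hx, hy, hxA, hyB, hxs, hyt⟩ := exists_run σ τ hσ hτ
      exact ⟨Set.range x, by rintro _ ⟨i, rfl⟩; exact hxA i, Set.range y,
        by rintro _ ⟨i, rfl⟩; exact hyB i, Set.infinite_range_of_injective hx.injective,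
        Set.infinite_range_of_injective hy.injective,
        Or.inr (Or.inr ⟨x, y, hxs, hyt, subset_rfl, subset_rfl⟩)⟩)
  refine ⟨W, V, hW, hV, ?_⟩
  intro σ τ hσ hτ
  obtain ⟨A, hA, B, hB, hAB⟩ := h (σ, τ)
  rcases hAB with ⟨s, hs⟩ | ⟨s, x, hs⟩ | ⟨x, y, hxs, hyt, hxA, hyB⟩
  · exfalso
    have h1 : A ∩ σ s ∈ W := Filter.inter_mem hA (hσ s)
    simp only at hs
    rw [hs] at h1
    exact Ultrafilter.empty_notMem h1
  · exfalso
    have h1 : B ∩ τ s x ∈ V := Filter.inter_mem hB (hτ s x)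
    simp only at hs
    rw [hs] at h1
    exact Ultrafilter.empty_notMem h1
  · exact ⟨x, y, hxs, hyt, Filter.mem_of_superset hA hxA, Filter.mem_of_superset hB hyB⟩

end Pool.Agent.R603.Tukey
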