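import Mathlib
import Pool.Agent.R603.Tukey.Pair

/-!
# Tukey reductions and the game
-/

namespace Pool.Agent.R603.Tukey

open Filter Set Cardinal Pool.Agent.R603.HE

/-- A nonprincipal ultrafilter is not countably generated. -/
theorem not_countably_generated {W : Ultrafilter ℕ} (hW : (W : Filter ℕ) ≤ cofinite)
    (E : ℕ → Set ℕ) (hE : ∀ n, E n ∈ W) : ∃ a ∈ W, ∀ n, ¬ E n ⊆ a := by
  classical
  have hinf : ∀ n, (E n).Infinite := by
    intro n hfin
    have h1 : (E n)ᶜ ∈ (W : Filter ℕ) := hW hfin.compl_mem_cofinite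
    exact Ultrafilter.compl_mem_iff_notMem.1 h1 (hE n)
  have h1 : ∀ (n : ℕ) (s : List ℕ), ∃ z, z ∈ E (n / 2) ∧ ∀ p ∈ s, p < z := by
    intro n s
    obtain ⟨x, hx, hx'⟩ := (hinf (n / 2)).exists_gt s.sum
    exact ⟨x, hx, fun p hp => lt_of_le_of_lt
      (List.single_le_sum (fun _ _ => Nat.zero_le _) _ hp) hx'⟩
  choose c hc hc' using h1
  let L : ℕ → List ℕ := fun i => Nat.rec [] (fun n l => l ++ [c n l]) i
  let z : ℕ → ℕ := fun i => c i (L i)
  have hL : ∀ i, L i = (List.range i).map z := by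
    intro i
    induction i with
    | zero => rfl
    | succ i ih =>
      rw [List.range_succ, List.map_append, ← ih]
      rfl
  have hz : StrictMono z := by
    intro i j hij
    refine hc' j (L j) (z i) ?_
    rw [hL, List.mem_map]
    exact ⟨i, List.mem_range.2 hij, rfl⟩
  have hzE : ∀ i, z i ∈ E (i / 2) := fun i => hc i (L i)
  let a : Set ℕ := Set.range (fun i => z (2 * i))
  rcases W.mem_or_compl_mem a with ha | ha
  · refine ⟨a, ha, fun n hn => ?_⟩
    have h2 : z (2 * n + 1) ∈ E n := by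
      have := hzE (2 * n + 1)
      rwa [show (2 * n + 1) / 2 = n by omega] at this
    obtain ⟨i, hi⟩ := hn h2
    have := hz.injective hi
    omega
  · refine ⟨aᶜ, ha, fun n hn => ?_⟩
    have h2 : z (2 * n) ∈ E n := by
      have := hzE (2 * n)
      rwa [show (2 * n) / 2 = n by omega] at this
    exact hn h2 ⟨n, rfl⟩

/-- a family of members of `W` covered by countably many bounded families -/
def SB (W : Ultrafilter ℕ) (X : Set (Set ℕ)) : Prop :=
  ∃ E : ℕ → Set ℕ, (∀ n, E n ∈ W) ∧ ∀ a ∈ X, ∃ n, E n ⊆ a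

theorem SB.iUnion {W : Ultrafilter ℕ} {X : ℕ → Set (Set ℕ)} (h : ∀ n, SB W (X n)) :
    SB W (⋃ n, X n) := by
  choose E hE hE' using h
  refine ⟨fun k => E k.unpair.1 k.unpair.2, fun k => hE _ _, ?_⟩
  intro a ha
  obtain ⟨n, hn⟩ := Set.mem_iUnion.1 ha
  obtain ⟨m, hm⟩ := hE' n a hn
  exact ⟨Nat.pair n m, by simpa using hm⟩

theorem SB.mono {W : Ultrafilter ℕ} {X Y : Set (Set ℕ)} (h : SB W Y) (hXY : X ⊆ Y) : SB W X := by
  obtain ⟨E, hE, hE'⟩ := h
  exact ⟨E, hE, fun a ha => hE' a (hXY ha)⟩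

/-- the members `a` of `W` such that `S a` contains the second coordinates of the position -/
def Xs (W : Ultrafilter ℕ) (S : Set ℕ → Set ℕ) (s : List (ℕ × ℕ)) : Set (Set ℕ) :=
  {a | a ∈ W ∧ ∀ p ∈ s, p.2 ∈ S a}

theorem not_SB_nil {W : Ultrafilter ℕ} (hW : (W : Filter ℕ) ≤ cofinite) (S : Set ℕ → Set ℕ) :
    ¬ SB W (Xs W S []) := by
  rintro ⟨E, hE, hE'⟩
  obtain ⟨a, ha, ha'⟩ := not_countably_generated hW E hE
  obtain ⟨n, hn⟩ := hE' a ⟨ha, by simp⟩
  exact ha' n hn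

theorem good_mem {W V : Ultrafilter ℕ} {S : Set ℕ → Set ℕ} (hS : ∀ a ∈ W, S a ∈ V)
    {s : List (ℕ × ℕ)} (hs : ¬ SB W (Xs W S s)) (x : ℕ) :
    {y | ¬ SB W (Xs W S (s ++ [(x, y)]))} ∈ V := by
  classical
  rw [← Ultrafilter.mem_coe]
  by_contra hcon
  rw [Ultrafilter.mem_coe, ← Ultrafilter.compl_mem_iff_notMem] at hcon
  apply hs
  have h1 : ∀ y, SB W (if SB W (Xs W S (s ++ [(x, y)])) then Xs W S (s ++ [(x, y)]) else ∅) := by
    intro y
    split_ifs with h
    · exact h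
    · exact ⟨fun _ => Set.univ, fun _ => Filter.univ_mem, fun a ha => ha.elim⟩
  refine (SB.iUnion h1).mono ?_
  intro a ha
  have h2 : S a ∩ {y | ¬ SB W (Xs W S (s ++ [(x, y)]))}ᶜ ∈ V :=
    Filter.inter_mem (hS a ha.1) hcon
  obtain ⟨y, hy1, hy2⟩ := Ultrafilter.nonempty_of_mem h2
  have hy3 : SB W (Xs W S (s ++ [(x, y)])) := by
    simpa using hy2
  refine Set.mem_iUnion.2 ⟨y, ?_⟩
  rw [if_pos hy3]
  refine ⟨ha.1, ?_⟩
  intro p hp
  rcases List.mem_append.1 hp with hp | hp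
  · exact ha.2 p hp
  · rw [List.mem_singleton] at hp
    rw [hp]
    exact hy1

theorem unb_mem {W : Ultrafilter ℕ} {S : Set ℕ → Set ℕ}
    {s : List (ℕ × ℕ)} (hs : ¬ SB W (Xs W S s)) :
    {x | ∃ a ∈ Xs W S s, x ∉ a} ∈ W := by
  by_contra hcon
  rw [← Ultrafilter.compl_mem_iff_notMem] at hcon
  apply hs
  refine ⟨fun _ => _, fun _ => hcon, fun a ha => ⟨0, ?_⟩⟩
  intro x hx
  by_contra hxa
  exact hx ⟨a, ha, hxa⟩

/-- The main lemma: no map from `W` to `V` sends countable unbounded families to unbounded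
families. -/
theorem exists_bad {W V : Ultrafilter ℕ} (hW : (W : Filter ℕ) ≤ cofinite)
    (h : NoStrategy W V) (S : Set ℕ → Set ℕ) (hS : ∀ a ∈ W, S a ∈ V) :
    ∃ a : ℕ → Set ℕ, (∀ i, a i ∈ W) ∧ (∃ C ∈ V, ∀ i, C ⊆ S (a i)) ∧
      ¬ ∃ b ∈ W, ∀ i, b ⊆ a i := by
  classical
  let Good : List (ℕ × ℕ) → Prop := fun s => ¬ SB W (Xs W S s)
  let A : List (ℕ × ℕ) → ℕ → Set ℕ := fun s x =>
    if h : ∃ a ∈ Xs W S s, x ∉ a then h.choose else Set.univ
  have hA1 : ∀ s x, A s x ∈ W := by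
    intro s x
    by_cases h : ∃ a ∈ Xs W S s, x ∉ a
    · simp only [A, dif_pos h]
      exact h.choose_spec.1.1
    · simp only [A, dif_neg h]
      exact Filter.univ_mem
  have hA2 : ∀ s x, (∃ a ∈ Xs W S s, x ∉ a) → A s x ∈ Xs W S s ∧ x ∉ A s x := by
    intro s x h
    simp only [A, dif_pos h]
    exact h.choose_spec
  let σ : List (ℕ × ℕ) → Set ℕ := fun s =>
    if Good s then {x | ∃ a ∈ Xs W S s, x ∉ a} else Set.univ
  let τ : List (ℕ × ℕ) → ℕ → Set ℕ := fun s x =>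
    (if Good s then {y | Good (s ++ [(x, y)])} else Set.univ) ∩ S (A s x) ∩
      ⋂ i ∈ Finset.range s.length, S (A (s.take i) (s.getD i (0, 0)).1)
  have hσ : ∀ s, σ s ∈ W := by
    intro s
    by_cases hs : Good s
    · simp only [σ, if_pos hs]
      exact unb_mem hs
    · simp only [σ, if_neg hs]
      exact Filter.univ_mem
  have hτ : ∀ s x, τ s x ∈ V := by
    intro s x
    refine Filter.inter_mem (Filter.inter_mem ?_ (hS _ (hA1 _ _))) ?_
    · by_cases hs : Good s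
      · rw [if_pos hs]
        exact good_mem hS hs x
      · rw [if_neg hs]
        exact Filter.univ_mem
    · rw [Filter.biInter_finset_mem]
      intro i _
      exact hS _ (hA1 _ _)
  obtain ⟨x, y, hx, hy, hxW, hyV⟩ := h σ τ hσ hτ
  have hgood : ∀ i, Good (pre x y i) := by
    intro i
    induction i with
    | zero => exact not_SB_nil hW S
    | succ i ih =>
      rw [pre_succ]
      have h1 := (hy i).1.1
      rw [if_pos ih] at h1
      exact h1
  have hx' : ∀ i, ∃ a ∈ Xs W S (pre x y i), x i ∉ a := by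
    intro i
    have h1 := hx i
    simp only [σ, if_pos (hgood i)] at h1
    exact h1
  refine ⟨fun i => A (pre x y i) (x i), fun i => hA1 _ _, ⟨Set.range y, hyV, ?_⟩, ?_⟩
  · rintro i _ ⟨j, rfl⟩
    rcases lt_trichotomy j i with hji | hji | hji
    · exact (hA2 _ _ (hx' i)).1.2 (x j, y j) (mem_pre hji)
    · subst hji
      exact (hy j).1.2
    · have h1 := (hy j).2
      simp only [Set.mem_iInter, Finset.mem_range, length_pre] at h1
      have h2 := h1 i hji
      rw [take_pre hji.le, getD_pre hji] at h2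
      exact h2
  · rintro ⟨b, hb, hb'⟩
    obtain ⟨_, hz1, i, rfl⟩ := Ultrafilter.nonempty_of_mem (Filter.inter_mem hb hxW)
    exact (hA2 _ _ (hx' i)).2 (hb' i hz1)

theorem exists_pseudo_inter {W V : Ultrafilter ℕ} (h : NoStrategy W V) (a : ℕ → Set ℕ)
    (ha : ∀ i, a i ∈ W) : ∃ B ∈ W, ∀ i, (B \ a i).Finite := by
  classical
  obtain ⟨x, y, hx, -, hxW, -⟩ := h (fun s => ⋂ i ∈ Finset.range (s.length + 1), a i)
    (fun _ _ => Set.univ) (fun s => by
      rw [← Ultrafilter.mem_coe, Filter.biInter_finset_mem]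
      exact fun i _ => ha i) (fun _ _ => Filter.univ_mem)
  refine ⟨Set.range x, hxW, fun i => ?_⟩
  refine ((Set.finite_Iio i).image x).subset ?_
  rintro _ ⟨⟨j, rfl⟩, hj⟩
  refine ⟨j, ?_, rfl⟩
  by_contra hcon
  apply hj
  have h1 := hx j
  simp only [Set.mem_iInter, Finset.mem_range, length_pre] at h1
  exact h1 i (by
    have : ¬ j < i := hcon
    omega)

end Pool.Agent.R603.Tukey
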