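import Mathlib
import Pool.Agent.R603.Tukey.Main
import Pool.Agent.R603.HE.Sep

/-!
# An ultrafilter whose inclusion order is not Tukey reducible to its almost-inclusion order
-/

namespace Pool.Agent.R603.Tukey

open Filter Set Cardinal Pool.Agent.R603.HE

/-- Tukey reducibility `(P, r) ≤_T (Q, s)` of preordered sets: there is a map `f : P → Q` sending
every unbounded subset of `P` to an unbounded subset of `Q`. -/
def TukeyLE {P Q : Type} (r : P → P → Prop) (s : Q → Q → Prop) : Prop :=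
  ∃ f : P → Q, ∀ F : Set P, (¬ ∃ b : P, ∀ a ∈ F, r a b) → ¬ ∃ b : Q, ∀ a ∈ f '' F, s a b

/-- The order `⊇` on an ultrafilter: `B` is above `A` when `A ⊇ B`. -/
def Incl (U : Ultrafilter ℕ) (A B : {A : Set ℕ // A ∈ U}) : Prop :=
  (B : Set ℕ) ⊆ (A : Set ℕ)

/-- The order `⊇*` on an ultrafilter: `B` is above `A` when `B \ A` is finite. -/
def AlmostIncl (U : Ultrafilter ℕ) (A B : {A : Set ℕ // A ∈ U}) : Prop :=
  ((B : Set ℕ) \ (A : Set ℕ)).Finite

/-- `U` is a p-point: every sequence of members of `U` has a pseudo-intersection in `U`. -/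
def IsPPoint (U : Ultrafilter ℕ) : Prop :=
  ∀ A : ℕ → Set ℕ, (∀ n, A n ∈ U) → ∃ B ∈ U, ∀ n, (B \ A n).Finite

theorem mem_usum {V W : Ultrafilter ℕ} {B : Set ℕ} :
    B ∈ usum V (fun _ => W) ↔ {n | {m | Nat.pair n m ∈ B} ∈ W} ∈ V := Iff.rfl

theorem almost_le_incl (U : Ultrafilter ℕ) : TukeyLE (AlmostIncl U) (Incl U) := by
  refine ⟨id, fun F hF => ?_⟩
  rintro ⟨b, hb⟩
  apply hF
  refine ⟨b, fun a ha => ?_⟩
  have h1 : (b : Set ℕ) ⊆ (a : Set ℕ) := hb a ⟨a, ha, rfl⟩
  show ((b : Set ℕ) \ (a : Set ℕ)).Finite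
  rw [Set.sdiff_eq_empty.2 h1]
  exact Set.finite_empty

theorem infinite_of_mem {W : Ultrafilter ℕ} (hW : (W : Filter ℕ) ≤ cofinite) {A : Set ℕ}
    (hA : A ∈ W) : A.Infinite := by
  intro hfin
  have h1 : Aᶜ ∈ (W : Filter ℕ) := hW hfin.compl_mem_cofinite
  exact Ultrafilter.compl_mem_iff_notMem.1 h1 hA

theorem usum_le_cofinite {V W : Ultrafilter ℕ} (hW : (W : Filter ℕ) ≤ cofinite) :
    ((usum V (fun _ => W) : Ultrafilter ℕ) : Filter ℕ) ≤ cofinite := by
  intro B hB
  have hB' : Bᶜ.Finite := hB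
  rw [Ultrafilter.mem_coe, mem_usum]
  refine Filter.mem_of_superset Filter.univ_mem ?_
  intro n _
  have h1 : {m | Nat.pair n m ∈ B}ᶜ.Finite := by
    refine (hB'.preimage (f := Nat.pair n) ?_).subset ?_
    · intro a _ b _ hab
      have := congrArg Nat.unpair hab
      simpa using this
    · intro m hm
      exact hm
  have h2 := h1.compl_mem_cofinite
  rw [compl_compl] at h2
  exact hW h2

theorem not_ppoint_usum {V W : Ultrafilter ℕ} (hV : (V : Filter ℕ) ≤ cofinite)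
    (hW : (W : Filter ℕ) ≤ cofinite) : ¬ IsPPoint (usum V (fun _ => W)) := by
  intro h
  obtain ⟨B, hB, hB'⟩ := h (fun k => {z | k ≤ z.unpair.1}) (by
    intro k
    rw [mem_usum]
    refine hV ?_
    refine (Set.finite_Iio k).subset ?_
    intro n hn
    by_contra hcon
    apply hn
    refine Filter.mem_of_superset Filter.univ_mem ?_
    intro m _
    show k ≤ (Nat.pair n m).unpair.1
    rw [Nat.unpair_pair]
    exact not_lt.1 hcon)
  rw [mem_usum] at hB
  obtain ⟨n, hn⟩ := Ultrafilter.nonempty_of_mem hB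
  have h1 : {m | Nat.pair n m ∈ B}.Infinite := infinite_of_mem hW hn
  apply h1
  have h2 := hB' (n + 1)
  refine (h2.preimage (f := Nat.pair n) ?_).subset ?_
  · intro a _ b _ hab
    have := congrArg Nat.unpair hab
    simpa using this
  · intro m hm
    refine ⟨hm, ?_⟩
    show ¬ (n + 1 ≤ (Nat.pair n m).unpair.1)
    rw [Nat.unpair_pair]
    simp

theorem not_incl_le_almost {V W : Ultrafilter ℕ}
    (hW : (W : Filter ℕ) ≤ cofinite) (h : NoStrategy W V) :
    ¬ TukeyLE (Incl (usum V (fun _ => W))) (AlmostIncl (usum V (fun _ => W))) := by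
  classical
  rintro ⟨f, hf⟩
  let U := usum V (fun _ => W)
  -- the cylinder over a member of `W`
  let cyl : Set ℕ → Set ℕ := fun a => {z | z.unpair.2 ∈ a}
  have hcyl : ∀ a ∈ W, cyl a ∈ U := by
    intro a ha
    show cyl a ∈ usum V (fun _ => W)
    rw [mem_usum]
    refine Filter.mem_of_superset Filter.univ_mem ?_
    intro n _
    refine Filter.mem_of_superset ha ?_
    intro m hm
    show (Nat.pair n m).unpair.2 ∈ a
    rw [Nat.unpair_pair]
    exact hm
  let g : Set ℕ → Set ℕ := fun a => if ha : a ∈ W then (f ⟨cyl a, hcyl a ha⟩ : Set ℕ) else Set.univ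
  have hg : ∀ a (ha : a ∈ W), g a = (f ⟨cyl a, hcyl a ha⟩ : Set ℕ) := by
    intro a ha
    simp only [g, dif_pos ha]
  have hgU : ∀ a ∈ W, g a ∈ U := by
    intro a ha
    rw [hg a ha]
    exact (f _).2
  obtain ⟨a, haW, ⟨C, hC, hCS⟩, hunb⟩ := exists_bad hW h
    (fun a => {n | {m | Nat.pair n m ∈ g a} ∈ W}) (fun a ha => mem_usum.1 (hgU a ha))
  -- choose pseudo-intersections in every column
  have hcol : ∀ n ∈ C, ∃ B ∈ W, (∀ i, (B \ {m | Nat.pair n m ∈ g (a i)}).Finite) ∧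
      ∀ i ≤ n, B ⊆ {m | Nat.pair n m ∈ g (a i)} := by
    intro n hn
    have h1 : ∀ i, {m | Nat.pair n m ∈ g (a i)} ∈ W := fun i => hCS i hn
    obtain ⟨B, hB, hB'⟩ := exists_pseudo_inter h _ h1
    refine ⟨B ∩ ⋂ i ∈ Finset.range (n + 1), {m | Nat.pair n m ∈ g (a i)}, ?_, ?_, ?_⟩
    · refine Filter.inter_mem hB ?_
      rw [Filter.biInter_finset_mem]
      exact fun i _ => h1 i
    · intro i
      exact (hB' i).subset (Set.sdiff_subset_sdiff_left Set.inter_subset_left)
    · intro i hi m hm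
      have h2 := hm.2
      simp only [Set.mem_iInter, Finset.mem_range] at h2
      exact h2 i (by omega)
  choose! B hBW hBfin hBsub using hcol
  let D : Set ℕ := {z | z.unpair.1 ∈ C ∧ z.unpair.2 ∈ B z.unpair.1}
  have hD : D ∈ U := by
    show D ∈ usum V (fun _ => W)
    rw [mem_usum]
    refine Filter.mem_of_superset hC ?_
    intro n hn
    refine Filter.mem_of_superset (hBW n hn) ?_
    intro m hm
    show (Nat.pair n m).unpair.1 ∈ C ∧ (Nat.pair n m).unpair.2 ∈ B (Nat.pair n m).unpair.1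
    rw [Nat.unpair_pair]
    exact ⟨hn, hm⟩
  have hDg : ∀ i, (D \ g (a i)).Finite := by
    intro i
    have hfin : (⋃ n ∈ Finset.range i, Nat.pair n ''
        (if n ∈ C then B n \ {m | Nat.pair n m ∈ g (a i)} else ∅)).Finite := by
      refine Set.Finite.biUnion (Finset.finite_toSet _) ?_
      intro n _
      refine Set.Finite.image _ ?_
      split_ifs with hn
      · exact hBfin n hn i
      · exact Set.finite_empty
    refine hfin.subset ?_
    rintro z ⟨⟨hz1, hz2⟩, hz3⟩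
    have hz : Nat.pair z.unpair.1 z.unpair.2 = z := Nat.pair_unpair z
    by_cases hi : z.unpair.1 < i
    · refine Set.mem_biUnion (Finset.mem_range.2 hi) ?_
      rw [if_pos hz1]
      refine ⟨z.unpair.2, ⟨hz2, ?_⟩, hz⟩
      intro hcon
      apply hz3
      have : Nat.pair z.unpair.1 z.unpair.2 ∈ g (a i) := hcon
      rwa [hz] at this
    · exfalso
      apply hz3
      have h2 := hBsub z.unpair.1 hz1 i (not_lt.1 hi) hz2
      have : Nat.pair z.unpair.1 z.unpair.2 ∈ g (a i) := h2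
      rwa [hz] at this
  refine hf (Set.range (fun i => (⟨cyl (a i), hcyl _ (haW i)⟩ : {A : Set ℕ // A ∈ U}))) ?_ ?_
  · rintro ⟨b, hb⟩
    apply hunb
    have hbU : (b : Set ℕ) ∈ usum V (fun _ => W) := b.2
    rw [mem_usum] at hbU
    obtain ⟨n, hn⟩ := Ultrafilter.nonempty_of_mem hbU
    refine ⟨_, hn, fun i m hm => ?_⟩
    have h1 : (b : Set ℕ) ⊆ cyl (a i) := hb _ ⟨i, rfl⟩
    have h2 : Nat.pair n m ∈ cyl (a i) := h1 hm
    have h3 : (Nat.pair n m).unpair.2 ∈ a i := h2
    rwa [Nat.unpair_pair] at h3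
  · refine ⟨⟨D, hD⟩, ?_⟩
    rintro _ ⟨_, ⟨i, rfl⟩, rfl⟩
    show (D \ (f ⟨cyl (a i), hcyl _ (haW i)⟩ : Set ℕ)).Finite
    rw [← hg (a i) (haW i)]
    exact hDg i

/-- Under the continuum hypothesis there is a nonprincipal ultrafilter `U` on `ℕ` which is not a
p-point and satisfies `(U, ⊇*) <_T (U, ⊇)`. -/
theorem exists_ultrafilter (hCH : aleph 1 = continuum.{0}) :
    ∃ U : Ultrafilter ℕ, (U : Filter ℕ) ≤ cofinite ∧ ¬ IsPPoint U ∧
      TukeyLE (AlmostIncl U) (Incl U) ∧ ¬ TukeyLE (Incl U) (AlmostIncl U) := by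
  obtain ⟨W, V, hW, hV, h⟩ := exists_pair hCH
  exact ⟨usum V (fun _ => W), usum_le_cofinite hW, not_ppoint_usum hV hW, almost_le_incl _,
    not_incl_le_almost hW h⟩

end Pool.Agent.R603.Tukey
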